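import Mathlib

/-!
# Latin bitrades whose mates need an abelian group of exponential order

We answer Q1 of MP_afce15_co affirmatively.

For `n ≥ 1` let `W n` consist of the triples
`(0, 0, n)`, `(i+1, 0, i)`, `(0, i+1, i)`, `(i+1, i+1, i+1)` for `i < n`, and `B n` of
`(0, 0, 0)`, `(i+1, 0, i+1)`, `(0, i+1, i+1)`, `(i+1, i+1, i)` for `i < n`.
(Geometrically: the corner of an equilateral triangle is cut off at the midpoints `n` times.)
Then `(W n, B n)` is a latin bitrade of size `3 n + 1`, both mates embed in `ZMod (2 ^ n)`, and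
each of the two mates embeds only in abelian groups having an element of order `2 ^ n`.
-/

namespace Pool.Agent.Results.MP_afce15_co.ExponentialGrowth

open Filter

/-- A partial latin square, as a finite set of triples (row, column, symbol) with labels in `ℕ`:
any two coordinates of a triple in it determine the third. -/
structure IsPLS (P : Finset (ℕ × ℕ × ℕ)) : Prop where
  sym_unique : ∀ r c s s', (r, c, s) ∈ P → (r, c, s') ∈ P → s = s'
  col_unique : ∀ r c c' s, (r, c, s) ∈ P → (r, c', s) ∈ P → c = c'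
  row_unique : ∀ r r' c s, (r, c, s) ∈ P → (r', c, s) ∈ P → r = r'

/-- A latin bitrade: nonempty disjoint partial latin squares with the same filled cells such that
every row and every column contains the same set of symbols in both. -/
structure IsBitrade (W B : Finset (ℕ × ℕ × ℕ)) : Prop where
  pls_left : IsPLS W
  pls_right : IsPLS B
  nonempty_left : W.Nonempty
  nonempty_right : B.Nonempty
  disjoint : Disjoint W B
  cells : ∀ r c, (∃ s, (r, c, s) ∈ W) ↔ ∃ s, (r, c, s) ∈ B
  rows : ∀ r s, (∃ c, (r, c, s) ∈ W) ↔ ∃ c, (r, c, s) ∈ B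
  cols : ∀ c s, (∃ r, (r, c, s) ∈ W) ↔ ∃ r, (r, c, s) ∈ B

/-- `P` embeds in the abelian group `G`: there are maps `α`, `β`, `γ`, injective on the rows,
columns and symbols of `P`, with `α r + β c = γ s` for each triple `(r, c, s)` of `P`. -/
def Embeds (P : Finset (ℕ × ℕ × ℕ)) (G : Type*) [AddCommGroup G] : Prop :=
  ∃ α β γ : ℕ → G,
    Set.InjOn α {r | ∃ c s, (r, c, s) ∈ P} ∧
    Set.InjOn β {c | ∃ r s, (r, c, s) ∈ P} ∧
    Set.InjOn γ {s | ∃ r c, (r, c, s) ∈ P} ∧
    ∀ r c s, (r, c, s) ∈ P → α r + β c = γ s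

/-- `m(W, B)`: the least order of a finite abelian group in which `W` embeds and `B` embeds
(`⊤` if there is no such group). -/
noncomputable def minOrder (W B : Finset (ℕ × ℕ × ℕ)) : ℕ∞ :=
  ⨅ k ∈ {k : ℕ | ∃ (G : Type) (_ : AddCommGroup G), Finite G ∧ Nat.card G = k ∧
    Embeds W G ∧ Embeds B G}, (k : ℕ∞)

/-- One step of the row permutation of `W`: from a filled cell `x` go to the cell of `W` in the
same row whose symbol is the symbol of `B` in the cell of `x`. -/
def rowStep (W B : Finset (ℕ × ℕ × ℕ)) (x y : ℕ × ℕ × ℕ) : Prop :=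
  x ∈ W ∧ y ∈ W ∧ y.1 = x.1 ∧ (x.1, x.2.1, y.2.2) ∈ B

/-- One step of the column permutation of `W`: from a filled cell `x` go to the cell of `W` in the
same column whose symbol is the symbol of `B` in the cell of `x`. -/
def colStep (W B : Finset (ℕ × ℕ × ℕ)) (x y : ℕ × ℕ × ℕ) : Prop :=
  x ∈ W ∧ y ∈ W ∧ y.2.1 = x.2.1 ∧ (x.1, x.2.1, y.2.2) ∈ B

/-- One step of the symbol permutation of `W`: from a filled cell `x` with symbol `s` go to the
cell of `W` with symbol `s` in the row in which `B` has `s` in the column of `x`. -/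
def symStep (W B : Finset (ℕ × ℕ × ℕ)) (x y : ℕ × ℕ × ℕ) : Prop :=
  x ∈ W ∧ y ∈ W ∧ y.2.2 = x.2.2 ∧ (y.1, x.2.1, x.2.2) ∈ B

/-- A spherical latin bitrade: separated (each row, each column and each symbol gives a single
cycle), connected, and of genus `0` by Euler's formula `|R| + |C| + |S| = |W| + 2`. -/
structure IsSpherical (W B : Finset (ℕ × ℕ × ℕ)) : Prop where
  row_cycle : ∀ x ∈ W, ∀ y ∈ W, y.1 = x.1 → Relation.ReflTransGen (rowStep W B) x y
  col_cycle : ∀ x ∈ W, ∀ y ∈ W, y.2.1 = x.2.1 → Relation.ReflTransGen (colStep W B) x y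
  sym_cycle : ∀ x ∈ W, ∀ y ∈ W, y.2.2 = x.2.2 → Relation.ReflTransGen (symStep W B) x y
  connected : ∀ x ∈ W, ∀ y ∈ W, Relation.ReflTransGen
    (fun a b => rowStep W B a b ∨ colStep W B a b ∨ symStep W B a b) x y
  euler : Set.ncard {r | ∃ c s, (r, c, s) ∈ W} + Set.ncard {c | ∃ r s, (r, c, s) ∈ W} +
    Set.ncard {s | ∃ r c, (r, c, s) ∈ W} = W.card + 2

/-- The first mate. -/
def W (n : ℕ) : Finset (ℕ × ℕ × ℕ) :=
  {(0, 0, n)} ∪ (Finset.range n).image (fun i => (i + 1, 0, i)) ∪
    (Finset.range n).image (fun i => (0, i + 1, i)) ∪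
    (Finset.range n).image (fun i => (i + 1, i + 1, i + 1))

/-- The second mate. -/
def B (n : ℕ) : Finset (ℕ × ℕ × ℕ) :=
  {(0, 0, 0)} ∪ (Finset.range n).image (fun i => (i + 1, 0, i + 1)) ∪
    (Finset.range n).image (fun i => (0, i + 1, i + 1)) ∪
    (Finset.range n).image (fun i => (i + 1, i + 1, i))

lemma mem_W {n r c s : ℕ} : (r, c, s) ∈ W n ↔
    (r = 0 ∧ c = 0 ∧ s = n) ∨ (c = 0 ∧ r = s + 1 ∧ s < n) ∨ (r = 0 ∧ c = s + 1 ∧ s < n) ∨
      (r = s ∧ c = s ∧ 1 ≤ s ∧ s ≤ n) := by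
  simp only [W, Finset.mem_union, Finset.mem_singleton, Finset.mem_image, Finset.mem_range,
    Prod.mk.injEq]
  constructor
  · rintro (((⟨h1, h2, h3⟩ | ⟨i, hi, h1, h2, h3⟩) | ⟨i, hi, h1, h2, h3⟩) | ⟨i, hi, h1, h2, h3⟩)
    · left; omega
    · right; left; omega
    · right; right; left; omega
    · right; right; right; omega
  · rintro (⟨h1, h2, h3⟩ | ⟨h1, h2, h3⟩ | ⟨h1, h2, h3⟩ | ⟨h1, h2, h3, h4⟩)
    · left; left; left; omega
    · left; left; right; exact ⟨s, by omega⟩
    · left; right; exact ⟨s, by omega⟩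
    · right; exact ⟨s - 1, by omega⟩

lemma mem_B {n r c s : ℕ} : (r, c, s) ∈ B n ↔
    (r = 0 ∧ c = 0 ∧ s = 0) ∨ (c = 0 ∧ r = s ∧ 1 ≤ s ∧ s ≤ n) ∨
      (r = 0 ∧ c = s ∧ 1 ≤ s ∧ s ≤ n) ∨ (r = s + 1 ∧ c = s + 1 ∧ s < n) := by
  simp only [B, Finset.mem_union, Finset.mem_singleton, Finset.mem_image, Finset.mem_range,
    Prod.mk.injEq]
  constructor
  · rintro (((⟨h1, h2, h3⟩ | ⟨i, hi, h1, h2, h3⟩) | ⟨i, hi, h1, h2, h3⟩) | ⟨i, hi, h1, h2, h3⟩)
    · left; omega
    · right; left; omega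
    · right; right; left; omega
    · right; right; right; omega
  · rintro (⟨h1, h2, h3⟩ | ⟨h1, h2, h3, h4⟩ | ⟨h1, h2, h3, h4⟩ | ⟨h1, h2, h3⟩)
    · left; left; left; omega
    · left; left; right; exact ⟨s - 1, by omega⟩
    · left; right; exact ⟨s - 1, by omega⟩
    · right; exact ⟨s, by omega⟩

lemma isPLS_W (n : ℕ) : IsPLS (W n) := by
  refine ⟨?_, ?_, ?_⟩ <;> intro a b c d h1 h2 <;> rw [mem_W] at h1 h2 <;> omega

lemma isPLS_B (n : ℕ) : IsPLS (B n) := by
  refine ⟨?_, ?_, ?_⟩ <;> intro a b c d h1 h2 <;> rw [mem_B] at h1 h2 <;> omega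

lemma isBitrade (n : ℕ) (hn : 1 ≤ n) : IsBitrade (W n) (B n) where
  pls_left := isPLS_W n
  pls_right := isPLS_B n
  nonempty_left := ⟨(0, 0, n), by rw [mem_W]; omega⟩
  nonempty_right := ⟨(0, 0, 0), by rw [mem_B]; omega⟩
  disjoint := by
    rw [Finset.disjoint_left]
    rintro ⟨r, c, s⟩ h1 h2
    rw [mem_W] at h1
    rw [mem_B] at h2
    omega
  cells := by
    intro r c
    constructor
    · rintro ⟨s, h⟩
      rw [mem_W] at h
      rcases h with ⟨h1, h2, h3⟩ | ⟨h1, h2, h3⟩ | ⟨h1, h2, h3⟩ | ⟨h1, h2, h3, h4⟩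
      · exact ⟨0, by rw [mem_B]; omega⟩
      · exact ⟨s + 1, by rw [mem_B]; omega⟩
      · exact ⟨s + 1, by rw [mem_B]; omega⟩
      · exact ⟨s - 1, by rw [mem_B]; omega⟩
    · rintro ⟨s, h⟩
      rw [mem_B] at h
      rcases h with ⟨h1, h2, h3⟩ | ⟨h1, h2, h3, h4⟩ | ⟨h1, h2, h3, h4⟩ | ⟨h1, h2, h3⟩
      · exact ⟨n, by rw [mem_W]; omega⟩
      · exact ⟨s - 1, by rw [mem_W]; omega⟩
      · exact ⟨s - 1, by rw [mem_W]; omega⟩
      · exact ⟨s + 1, by rw [mem_W]; omega⟩
  rows := by
    intro r s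
    constructor
    · rintro ⟨c, h⟩
      rw [mem_W] at h
      rcases h with ⟨h1, h2, h3⟩ | ⟨h1, h2, h3⟩ | ⟨h1, h2, h3⟩ | ⟨h1, h2, h3, h4⟩
      · exact ⟨s, by rw [mem_B]; omega⟩
      · exact ⟨s + 1, by rw [mem_B]; omega⟩
      · exact ⟨s, by rw [mem_B]; omega⟩
      · exact ⟨0, by rw [mem_B]; omega⟩
    · rintro ⟨c, h⟩
      rw [mem_B] at h
      rcases h with ⟨h1, h2, h3⟩ | ⟨h1, h2, h3, h4⟩ | ⟨h1, h2, h3, h4⟩ | ⟨h1, h2, h3⟩
      · exact ⟨1, by rw [mem_W]; omega⟩
      · exact ⟨s, by rw [mem_W]; omega⟩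
      · rcases Nat.lt_or_ge s n with hs | hs
        · exact ⟨s + 1, by rw [mem_W]; omega⟩
        · exact ⟨0, by rw [mem_W]; omega⟩
      · exact ⟨0, by rw [mem_W]; omega⟩
  cols := by
    intro c s
    constructor
    · rintro ⟨r, h⟩
      rw [mem_W] at h
      rcases h with ⟨h1, h2, h3⟩ | ⟨h1, h2, h3⟩ | ⟨h1, h2, h3⟩ | ⟨h1, h2, h3, h4⟩
      · exact ⟨s, by rw [mem_B]; omega⟩
      · exact ⟨s, by rw [mem_B]; omega⟩
      · exact ⟨s + 1, by rw [mem_B]; omega⟩
      · exact ⟨0, by rw [mem_B]; omega⟩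
    · rintro ⟨r, h⟩
      rw [mem_B] at h
      rcases h with ⟨h1, h2, h3⟩ | ⟨h1, h2, h3, h4⟩ | ⟨h1, h2, h3, h4⟩ | ⟨h1, h2, h3⟩
      · exact ⟨1, by rw [mem_W]; omega⟩
      · rcases Nat.lt_or_ge s n with hs | hs
        · exact ⟨s + 1, by rw [mem_W]; omega⟩
        · exact ⟨0, by rw [mem_W]; omega⟩
      · exact ⟨s, by rw [mem_W]; omega⟩
      · exact ⟨0, by rw [mem_W]; omega⟩

lemma card_W (n : ℕ) : (W n).card = 3 * n + 1 := by
  unfold W
  rw [Finset.card_union_of_disjoint, Finset.card_union_of_disjoint,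
    Finset.card_union_of_disjoint, Finset.card_image_of_injective,
    Finset.card_image_of_injective, Finset.card_image_of_injective]
  · simp only [Finset.card_singleton, Finset.card_range]; ring
  · intro a b h; simpa using h
  · intro a b h; simpa using h
  · intro a b h; simpa using h
  · rw [Finset.disjoint_left]
    rintro ⟨r, c, s⟩ h1 h2
    simp only [Finset.mem_singleton, Finset.mem_image, Finset.mem_range, Prod.mk.injEq] at h1 h2
    omega
  · rw [Finset.disjoint_left]
    rintro ⟨r, c, s⟩ h1 h2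
    simp only [Finset.mem_union, Finset.mem_singleton, Finset.mem_image, Finset.mem_range,
      Prod.mk.injEq] at h1 h2
    omega
  · rw [Finset.disjoint_left]
    rintro ⟨r, c, s⟩ h1 h2
    simp only [Finset.mem_union, Finset.mem_singleton, Finset.mem_image, Finset.mem_range,
      Prod.mk.injEq] at h1 h2
    omega

lemma rows_W (n : ℕ) (hn : 1 ≤ n) : {r | ∃ c s, (r, c, s) ∈ W n} = Set.Iic n := by
  ext r
  simp only [Set.mem_ofPred_eq, Set.mem_Iic, mem_W]
  constructor
  · rintro ⟨c, s, h⟩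
    omega
  · intro h
    rcases Nat.eq_zero_or_pos r with rfl | hr
    · exact ⟨0, n, by omega⟩
    · exact ⟨r, r, by omega⟩

lemma cols_W (n : ℕ) (hn : 1 ≤ n) : {c | ∃ r s, (r, c, s) ∈ W n} = Set.Iic n := by
  ext r
  simp only [Set.mem_ofPred_eq, Set.mem_Iic, mem_W]
  constructor
  · rintro ⟨c, s, h⟩
    omega
  · intro h
    rcases Nat.eq_zero_or_pos r with rfl | hr
    · exact ⟨0, n, by omega⟩
    · exact ⟨r, r, by omega⟩

lemma syms_W (n : ℕ) (hn : 1 ≤ n) : {s | ∃ r c, (r, c, s) ∈ W n} = Set.Iic n := by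
  ext r
  simp only [Set.mem_ofPred_eq, Set.mem_Iic, mem_W]
  constructor
  · rintro ⟨c, s, h⟩
    omega
  · intro h
    rcases Nat.eq_zero_or_pos r with rfl | hr
    · exact ⟨0, 1, by omega⟩
    · exact ⟨r, r, by omega⟩

lemma rowStep_mk {n r c s c' s' : ℕ} (h1 : (r, c, s) ∈ W n) (h2 : (r, c', s') ∈ W n)
    (h3 : (r, c, s') ∈ B n) : rowStep (W n) (B n) (r, c, s) (r, c', s') :=
  ⟨h1, h2, rfl, h3⟩

lemma colStep_mk {n r c s r' s' : ℕ} (h1 : (r, c, s) ∈ W n) (h2 : (r', c, s') ∈ W n)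
    (h3 : (r, c, s') ∈ B n) : colStep (W n) (B n) (r, c, s) (r', c, s') :=
  ⟨h1, h2, rfl, h3⟩

lemma row0_fwd (n : ℕ) : ∀ i < n, Relation.ReflTransGen (rowStep (W n) (B n))
    (0, 0, n) (0, i + 1, i) := by
  intro i
  induction i with
  | zero =>
    intro h
    apply Relation.ReflTransGen.single
    exact rowStep_mk (by rw [mem_W]; omega) (by rw [mem_W]; omega) (by rw [mem_B]; omega)
  | succ i ih =>
    intro h
    refine (ih (by omega)).tail ?_
    exact rowStep_mk (by rw [mem_W]; omega) (by rw [mem_W]; omega) (by rw [mem_B]; omega)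

lemma row0_bwd (n : ℕ) : ∀ j i, i + j + 1 = n → Relation.ReflTransGen (rowStep (W n) (B n))
    (0, i + 1, i) (0, 0, n) := by
  intro j
  induction j with
  | zero =>
    intro i h
    apply Relation.ReflTransGen.single
    exact rowStep_mk (by rw [mem_W]; omega) (by rw [mem_W]; omega) (by rw [mem_B]; omega)
  | succ j ih =>
    intro i h
    refine Relation.ReflTransGen.head (b := (0, i + 1 + 1, i + 1)) ?_ (ih (i + 1) (by omega))
    exact rowStep_mk (by rw [mem_W]; omega) (by rw [mem_W]; omega) (by rw [mem_B]; omega)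

lemma col0_fwd (n : ℕ) : ∀ i < n, Relation.ReflTransGen (colStep (W n) (B n))
    (0, 0, n) (i + 1, 0, i) := by
  intro i
  induction i with
  | zero =>
    intro h
    apply Relation.ReflTransGen.single
    exact colStep_mk (by rw [mem_W]; omega) (by rw [mem_W]; omega) (by rw [mem_B]; omega)
  | succ i ih =>
    intro h
    refine (ih (by omega)).tail ?_
    exact colStep_mk (by rw [mem_W]; omega) (by rw [mem_W]; omega) (by rw [mem_B]; omega)

lemma col0_bwd (n : ℕ) : ∀ j i, i + j + 1 = n → Relation.ReflTransGen (colStep (W n) (B n))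
    (i + 1, 0, i) (0, 0, n) := by
  intro j
  induction j with
  | zero =>
    intro i h
    apply Relation.ReflTransGen.single
    exact colStep_mk (by rw [mem_W]; omega) (by rw [mem_W]; omega) (by rw [mem_B]; omega)
  | succ j ih =>
    intro i h
    refine Relation.ReflTransGen.head (b := (i + 1 + 1, 0, i + 1)) ?_ (ih (i + 1) (by omega))
    exact colStep_mk (by rw [mem_W]; omega) (by rw [mem_W]; omega) (by rw [mem_B]; omega)

lemma row_cycle (n : ℕ) (x : ℕ × ℕ × ℕ) (hx : x ∈ W n) (y : ℕ × ℕ × ℕ) (hy : y ∈ W n)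
    (h : y.1 = x.1) : Relation.ReflTransGen (rowStep (W n) (B n)) x y := by
  obtain ⟨r, c, s⟩ := x
  obtain ⟨r', c', s'⟩ := y
  dsimp only at h
  subst h
  have hx' := mem_W.1 hx
  have hy' := mem_W.1 hy
  rcases Nat.eq_zero_or_pos r' with h0 | h0
  · subst h0
    have toBase : ∀ c s, (0, c, s) ∈ W n →
        Relation.ReflTransGen (rowStep (W n) (B n)) (0, c, s) (0, 0, n) := by
      intro c s hc
      rw [mem_W] at hc
      rcases hc with ⟨-, rfl, rfl⟩ | ⟨-, h2, -⟩ | ⟨-, rfl, h3⟩ | ⟨h1, -, h3, -⟩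
      · exact Relation.ReflTransGen.refl
      · omega
      · exact row0_bwd n (n - s - 1) s (by omega)
      · omega
    have fromBase : ∀ c s, (0, c, s) ∈ W n →
        Relation.ReflTransGen (rowStep (W n) (B n)) (0, 0, n) (0, c, s) := by
      intro c s hc
      rw [mem_W] at hc
      rcases hc with ⟨-, rfl, rfl⟩ | ⟨-, h2, -⟩ | ⟨-, rfl, h3⟩ | ⟨h1, -, h3, -⟩
      · exact Relation.ReflTransGen.refl
      · omega
      · exact row0_fwd n s h3
      · omega
    exact (toBase c s hx).trans (fromBase c' s' hy)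
  · have hcs : (c = 0 ∧ s + 1 = r') ∨ (c = r' ∧ s = r') := by omega
    have hcs' : (c' = 0 ∧ s' + 1 = r') ∨ (c' = r' ∧ s' = r') := by omega
    rcases hcs with ⟨h1, h2⟩ | ⟨h1, h2⟩ <;> rcases hcs' with ⟨h3, h4⟩ | ⟨h3, h4⟩
    · have : s = s' := by omega
      subst h1; subst h3; subst this
      exact Relation.ReflTransGen.refl
    · apply Relation.ReflTransGen.single
      refine ⟨hx, hy, rfl, ?_⟩
      simp only [mem_B]
      omega
    · apply Relation.ReflTransGen.single
      refine ⟨hx, hy, rfl, ?_⟩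
      simp only [mem_B]
      omega
    · have : s = s' := by omega
      have h5 : c = c' := by omega
      subst h5; subst this
      exact Relation.ReflTransGen.refl

lemma col_cycle (n : ℕ) (x : ℕ × ℕ × ℕ) (hx : x ∈ W n) (y : ℕ × ℕ × ℕ) (hy : y ∈ W n)
    (h : y.2.1 = x.2.1) : Relation.ReflTransGen (colStep (W n) (B n)) x y := by
  obtain ⟨r, c, s⟩ := x
  obtain ⟨r', c', s'⟩ := y
  dsimp only at h
  subst h
  have hx' := mem_W.1 hx
  have hy' := mem_W.1 hy
  rcases Nat.eq_zero_or_pos c' with h0 | h0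
  · subst h0
    have toBase : ∀ r s, (r, 0, s) ∈ W n →
        Relation.ReflTransGen (colStep (W n) (B n)) (r, 0, s) (0, 0, n) := by
      intro c s hc
      rw [mem_W] at hc
      rcases hc with ⟨rfl, -, rfl⟩ | ⟨-, rfl, h3⟩ | ⟨-, h2, -⟩ | ⟨-, h1, h3, -⟩
      · exact Relation.ReflTransGen.refl
      · exact col0_bwd n (n - s - 1) s (by omega)
      · omega
      · omega
    have fromBase : ∀ r s, (r, 0, s) ∈ W n →
        Relation.ReflTransGen (colStep (W n) (B n)) (0, 0, n) (r, 0, s) := by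
      intro c s hc
      rw [mem_W] at hc
      rcases hc with ⟨rfl, -, rfl⟩ | ⟨-, rfl, h3⟩ | ⟨-, h2, -⟩ | ⟨-, h1, h3, -⟩
      · exact Relation.ReflTransGen.refl
      · exact col0_fwd n s h3
      · omega
      · omega
    exact (toBase r s hx).trans (fromBase r' s' hy)
  · have hcs : (r = 0 ∧ s + 1 = c') ∨ (r = c' ∧ s = c') := by omega
    have hcs' : (r' = 0 ∧ s' + 1 = c') ∨ (r' = c' ∧ s' = c') := by omega
    rcases hcs with ⟨h1, h2⟩ | ⟨h1, h2⟩ <;> rcases hcs' with ⟨h3, h4⟩ | ⟨h3, h4⟩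
    · have : s = s' := by omega
      subst h1; subst h3; subst this
      exact Relation.ReflTransGen.refl
    · apply Relation.ReflTransGen.single
      refine ⟨hx, hy, rfl, ?_⟩
      simp only [mem_B]
      omega
    · apply Relation.ReflTransGen.single
      refine ⟨hx, hy, rfl, ?_⟩
      simp only [mem_B]
      omega
    · have : s = s' := by omega
      have h5 : r = r' := by omega
      subst h5; subst this
      exact Relation.ReflTransGen.refl

lemma symStep_mk {n r c s r' c' : ℕ} (h1 : (r, c, s) ∈ W n) (h2 : (r', c', s) ∈ W n)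
    (h3 : (r', c, s) ∈ B n) : symStep (W n) (B n) (r, c, s) (r', c', s) :=
  ⟨h1, h2, rfl, h3⟩

lemma sym_cycle (n : ℕ) (hn : 1 ≤ n) (x : ℕ × ℕ × ℕ) (hx : x ∈ W n) (y : ℕ × ℕ × ℕ)
    (hy : y ∈ W n) (h : y.2.2 = x.2.2) :
    Relation.ReflTransGen (symStep (W n) (B n)) x y := by
  obtain ⟨r, c, s⟩ := x
  obtain ⟨r', c', s'⟩ := y
  dsimp only at h
  subst h
  have key : ∃ r0 c0, (∀ r c, (r, c, s') ∈ W n →
      Relation.ReflTransGen (symStep (W n) (B n)) (r, c, s') (r0, c0, s')) ∧
      (∀ r c, (r, c, s') ∈ W n →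
      Relation.ReflTransGen (symStep (W n) (B n)) (r0, c0, s') (r, c, s')) := by
    have hs : s' ≤ n := by
      have := mem_W.1 hx
      omega
    rcases Nat.eq_zero_or_pos s' with h0 | h0
    · subst h0
      have a1 : (1, 0, 0) ∈ W n := by rw [mem_W]; omega
      have a2 : (0, 1, 0) ∈ W n := by rw [mem_W]; omega
      have b1 : (0, 0, 0) ∈ B n := by rw [mem_B]; omega
      have b2 : (1, 1, 0) ∈ B n := by rw [mem_B]; omega
      have s1 := Relation.ReflTransGen.single (symStep_mk a1 a2 b1)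
      have s2 := Relation.ReflTransGen.single (symStep_mk a2 a1 b2)
      have all : ∀ r c, (r, c, 0) ∈ W n → (r = 1 ∧ c = 0) ∨ (r = 0 ∧ c = 1) := by
        intro r c h
        rw [mem_W] at h
        omega
      refine ⟨1, 0, ?_, ?_⟩
      · intro r c h
        rcases all r c h with ⟨rfl, rfl⟩ | ⟨rfl, rfl⟩
        · exact Relation.ReflTransGen.refl
        · exact s2
      · intro r c h
        rcases all r c h with ⟨rfl, rfl⟩ | ⟨rfl, rfl⟩
        · exact Relation.ReflTransGen.refl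
        · exact s1
    · rcases Nat.lt_or_ge s' n with h1 | h1
      · have a1 : (s' + 1, 0, s') ∈ W n := by rw [mem_W]; omega
        have a2 : (s', s', s') ∈ W n := by rw [mem_W]; omega
        have a3 : (0, s' + 1, s') ∈ W n := by rw [mem_W]; omega
        have b1 : (s', 0, s') ∈ B n := by rw [mem_B]; omega
        have b2 : (0, s', s') ∈ B n := by rw [mem_B]; omega
        have b3 : (s' + 1, s' + 1, s') ∈ B n := by rw [mem_B]; omega
        have s1 := Relation.ReflTransGen.single (symStep_mk a1 a2 b1)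
        have s2 := Relation.ReflTransGen.single (symStep_mk a2 a3 b2)
        have s3 := Relation.ReflTransGen.single (symStep_mk a3 a1 b3)
        have all : ∀ r c, (r, c, s') ∈ W n →
            (r = s' + 1 ∧ c = 0) ∨ (r = s' ∧ c = s') ∨ (r = 0 ∧ c = s' + 1) := by
          intro r c h
          rw [mem_W] at h
          omega
        refine ⟨s' + 1, 0, ?_, ?_⟩
        · intro r c h
          rcases all r c h with ⟨rfl, rfl⟩ | ⟨rfl, rfl⟩ | ⟨rfl, rfl⟩
          · exact Relation.ReflTransGen.refl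
          · exact s2.trans s3
          · exact s3
        · intro r c h
          rcases all r c h with ⟨rfl, rfl⟩ | ⟨rfl, rfl⟩ | ⟨rfl, rfl⟩
          · exact Relation.ReflTransGen.refl
          · exact s1
          · exact s1.trans s2
      · have hs' : s' = n := by omega
        subst hs'
        have a1 : (0, 0, s') ∈ W s' := by rw [mem_W]; omega
        have a2 : (s', s', s') ∈ W s' := by rw [mem_W]; omega
        have b1 : (s', 0, s') ∈ B s' := by rw [mem_B]; omega
        have b2 : (0, s', s') ∈ B s' := by rw [mem_B]; omega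
        have s1 := Relation.ReflTransGen.single (symStep_mk a1 a2 b1)
        have s2 := Relation.ReflTransGen.single (symStep_mk a2 a1 b2)
        have all : ∀ r c, (r, c, s') ∈ W s' → (r = 0 ∧ c = 0) ∨ (r = s' ∧ c = s') := by
          intro r c h
          rw [mem_W] at h
          omega
        refine ⟨0, 0, ?_, ?_⟩
        · intro r c h
          rcases all r c h with ⟨rfl, rfl⟩ | ⟨rfl, rfl⟩
          · exact Relation.ReflTransGen.refl
          · exact s2
        · intro r c h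
          rcases all r c h with ⟨rfl, rfl⟩ | ⟨rfl, rfl⟩
          · exact Relation.ReflTransGen.refl
          · exact s1
  obtain ⟨r0, c0, k1, k2⟩ := key
  exact (k1 r c hx).trans (k2 r' c' hy)

lemma isSpherical (n : ℕ) (hn : 1 ≤ n) : IsSpherical (W n) (B n) where
  row_cycle := row_cycle n
  col_cycle := col_cycle n
  sym_cycle := sym_cycle n hn
  connected := by
    have rr : ∀ x y, Relation.ReflTransGen (rowStep (W n) (B n)) x y →
        Relation.ReflTransGen (fun a b => rowStep (W n) (B n) a b ∨ colStep (W n) (B n) a b ∨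
          symStep (W n) (B n) a b) x y :=
      fun x y h => Relation.ReflTransGen.mono (fun a b h => Or.inl h) x y h
    have cc : ∀ x y, Relation.ReflTransGen (colStep (W n) (B n)) x y →
        Relation.ReflTransGen (fun a b => rowStep (W n) (B n) a b ∨ colStep (W n) (B n) a b ∨
          symStep (W n) (B n) a b) x y :=
      fun x y h => Relation.ReflTransGen.mono (fun a b h => Or.inr (Or.inl h)) x y h
    have base : (0, 0, n) ∈ W n := by rw [mem_W]; omega
    have toBase : ∀ x ∈ W n, Relation.ReflTransGen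
        (fun a b => rowStep (W n) (B n) a b ∨ colStep (W n) (B n) a b ∨
          symStep (W n) (B n) a b) x (0, 0, n) := by
      rintro ⟨r, c, s⟩ hx
      rcases mem_W.1 hx with ⟨h1, h2, h3⟩ | ⟨h1, h2, h3⟩ | ⟨h1, h2, h3⟩ | ⟨h1, h2, h3, h4⟩
      · exact rr _ _ (row_cycle n _ hx _ base h1.symm)
      · exact cc _ _ (col_cycle n _ hx _ base h1.symm)
      · exact rr _ _ (row_cycle n _ hx _ base h1.symm)
      · have hm : (r, 0, s - 1) ∈ W n := by rw [mem_W]; omega
        exact (rr _ _ (row_cycle n _ hx _ hm rfl)).trans (cc _ _ (col_cycle n _ hm _ base rfl))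
    have fromBase : ∀ x ∈ W n, Relation.ReflTransGen
        (fun a b => rowStep (W n) (B n) a b ∨ colStep (W n) (B n) a b ∨
          symStep (W n) (B n) a b) (0, 0, n) x := by
      rintro ⟨r, c, s⟩ hx
      rcases mem_W.1 hx with ⟨h1, h2, h3⟩ | ⟨h1, h2, h3⟩ | ⟨h1, h2, h3⟩ | ⟨h1, h2, h3, h4⟩
      · exact rr _ _ (row_cycle n _ base _ hx h1)
      · exact cc _ _ (col_cycle n _ base _ hx h1)
      · exact rr _ _ (row_cycle n _ base _ hx h1)
      · have hm : (r, 0, s - 1) ∈ W n := by rw [mem_W]; omega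
        exact (cc _ _ (col_cycle n _ base _ hm rfl)).trans (rr _ _ (row_cycle n _ hm _ hx rfl))
    intro x hx y hy
    exact (toBase x hx).trans (fromBase y hy)
  euler := by
    rw [rows_W n hn, cols_W n hn, syms_W n hn, card_W]
    have : Set.ncard (Set.Iic n) = n + 1 := by
      rw [← Finset.coe_Iic, Set.ncard_coe_finset, Nat.card_Iic]
    rw [this]
    ring

/-- If `W n` embeds in `G` (with `n ≥ 1`), then `G` has an element of order `2 ^ n`. -/
lemma exists_order_of_W {n : ℕ} (hn : 1 ≤ n) {G : Type*} [AddCommGroup G]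
    (h : Embeds (W n) G) : ∃ g : G, addOrderOf g = 2 ^ n := by
  obtain ⟨α, β, γ, hα, -, -, h⟩ := h
  -- normalised symbols
  have h00 : α 0 + β 0 = γ n := h _ _ _ (by rw [mem_W]; omega)
  have hr : ∀ i < n, α (i + 1) + β 0 = γ i := fun i hi => h _ _ _ (by rw [mem_W]; omega)
  have hc : ∀ i < n, α 0 + β (i + 1) = γ i := fun i hi => h _ _ _ (by rw [mem_W]; omega)
  have hd : ∀ i < n, α (i + 1) + β (i + 1) = γ (i + 1) :=
    fun i hi => h _ _ _ (by rw [mem_W]; omega)
  have step : ∀ i < n, γ (i + 1) - γ n = 2 • (γ i - γ n) := by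
    intro i hi
    have e1 := hr i hi
    have e2 := hc i hi
    have e3 := hd i hi
    rw [two_nsmul, ← e3]
    have : γ n = α 0 + β 0 := h00.symm
    have : (γ i - γ n) + (γ i - γ n) = (α (i+1) + β 0 - γ n) + (α 0 + β (i+1) - γ n) := by
      rw [e1, e2]
    rw [this, h00.symm]
    abel
  have pow : ∀ i ≤ n, γ i - γ n = (2 ^ i) • (γ 0 - γ n) := by
    intro i
    induction i with
    | zero => intro _; simp
    | succ i ih =>
      intro hi
      rw [step i (by omega), ih (by omega), ← mul_smul, pow_succ, mul_comm]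
  refine ⟨γ 0 - γ n, ?_⟩
  obtain ⟨k, rfl⟩ : ∃ k, n = k + 1 := ⟨n - 1, by omega⟩
  apply addOrderOf_eq_prime_pow
  · rw [← pow k (by omega)]
    intro h0
    have e1 := hr k (by omega)
    have h0' : γ k = γ (k + 1) := sub_eq_zero.mp h0
    have e : α (k + 1) = α 0 := by
      have : α (k + 1) + β 0 = α 0 + β 0 := by rw [e1, h0', h00]
      exact add_right_cancel this
    have := hα ⟨0, k, by rw [mem_W]; omega⟩ ⟨0, k + 1, by rw [mem_W]; omega⟩ e
    omega
  · rw [← pow (k + 1) le_rfl, sub_self]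

/-- If `B n` embeds in `G` (with `n ≥ 1`), then `G` has an element of order `2 ^ n`. -/
lemma exists_order_of_B {n : ℕ} (hn : 1 ≤ n) {G : Type*} [AddCommGroup G]
    (h : Embeds (B n) G) : ∃ g : G, addOrderOf g = 2 ^ n := by
  obtain ⟨α, β, γ, -, -, hγ, h⟩ := h
  have h00 : α 0 + β 0 = γ 0 := h _ _ _ (by rw [mem_B]; omega)
  have hr : ∀ i < n, α (i + 1) + β 0 = γ (i + 1) := fun i hi => h _ _ _ (by rw [mem_B]; omega)
  have hc : ∀ i < n, α 0 + β (i + 1) = γ (i + 1) := fun i hi => h _ _ _ (by rw [mem_B]; omega)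
  have hd : ∀ i < n, α (i + 1) + β (i + 1) = γ i := fun i hi => h _ _ _ (by rw [mem_B]; omega)
  have step : ∀ i < n, γ i - γ 0 = 2 • (γ (i + 1) - γ 0) := by
    intro i hi
    have e1 := hr i hi
    have e2 := hc i hi
    have e3 := hd i hi
    rw [two_nsmul, ← e3]
    have : (γ (i+1) - γ 0) + (γ (i+1) - γ 0)
        = (α (i+1) + β 0 - γ 0) + (α 0 + β (i+1) - γ 0) := by
      rw [e1, e2]
    rw [this, h00.symm]
    abel
  have pow : ∀ i ≤ n, γ (n - i) - γ 0 = (2 ^ i) • (γ n - γ 0) := by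
    intro i
    induction i with
    | zero => intro _; simp
    | succ i ih =>
      intro hi
      have e := step (n - (i + 1)) (by omega)
      rw [show n - (i + 1) + 1 = n - i by omega, ih (by omega)] at e
      rw [e, ← mul_smul, pow_succ, mul_comm]
  refine ⟨γ n - γ 0, ?_⟩
  obtain ⟨k, rfl⟩ : ∃ k, n = k + 1 := ⟨n - 1, by omega⟩
  apply addOrderOf_eq_prime_pow
  · rw [← pow k (by omega)]
    intro h0
    have h0' : γ (k + 1 - k) = γ 0 := sub_eq_zero.mp h0
    have := hγ ⟨k + 1 - k, 0, by rw [mem_B]; omega⟩ ⟨0, 0, by rw [mem_B]; omega⟩ h0'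
    omega
  · have := pow (k + 1) le_rfl
    rw [Nat.sub_self, sub_self] at this
    exact this.symm

lemma two_pow_ne {n a b : ℕ} (ha : a < n) (hb : b < n)
    (h : ((2 ^ a : ℕ) : ZMod (2 ^ n)) = ((2 ^ b : ℕ) : ZMod (2 ^ n))) : a = b := by
  rw [ZMod.natCast_eq_natCast_iff'] at h
  rw [Nat.mod_eq_of_lt (Nat.pow_lt_pow_right (by norm_num) ha),
    Nat.mod_eq_of_lt (Nat.pow_lt_pow_right (by norm_num) hb)] at h
  exact Nat.pow_right_injective le_rfl h

lemma two_pow_ne_zero {n a : ℕ} (ha : a < n)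
    (h : ((2 ^ a : ℕ) : ZMod (2 ^ n)) = 0) : False := by
  rw [ZMod.natCast_eq_zero_iff] at h
  have := Nat.le_of_dvd (by positivity) h
  have h2 := Nat.pow_lt_pow_right (a := 2) (by norm_num) ha
  omega

lemma two_pow_self (n : ℕ) : ((2 ^ n : ℕ) : ZMod (2 ^ n)) = 0 := ZMod.natCast_self _

lemma embeds_W (n : ℕ) : Embeds (W n) (ZMod (2 ^ n)) := by
  refine ⟨fun r => if r = 0 then 0 else ((2 ^ (r - 1) : ℕ) : ZMod (2 ^ n)),
    fun r => if r = 0 then 0 else ((2 ^ (r - 1) : ℕ) : ZMod (2 ^ n)),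
    fun s => ((2 ^ s : ℕ) : ZMod (2 ^ n)), ?_, ?_, ?_, ?_⟩
  · rintro a ⟨c, s, h1⟩ b ⟨c', s', h2⟩ e
    rw [mem_W] at h1 h2
    dsimp only at e
    split_ifs at e with ha hb hb
    · omega
    · exact (two_pow_ne_zero (by omega) e.symm).elim
    · exact (two_pow_ne_zero (by omega) e).elim
    · have := two_pow_ne (by omega) (by omega) e
      omega
  · rintro a ⟨c, s, h1⟩ b ⟨c', s', h2⟩ e
    rw [mem_W] at h1 h2
    dsimp only at e
    split_ifs at e with ha hb hb
    · omega
    · exact (two_pow_ne_zero (by omega) e.symm).elim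
    · exact (two_pow_ne_zero (by omega) e).elim
    · have := two_pow_ne (by omega) (by omega) e
      omega
  · rintro a ⟨c, s, h1⟩ b ⟨c', s', h2⟩ e
    rw [mem_W] at h1 h2
    dsimp only at e
    by_cases ha : a = n <;> by_cases hb : b = n
    · omega
    · subst ha
      rw [two_pow_self] at e
      exact (two_pow_ne_zero (by omega) e.symm).elim
    · subst hb
      rw [two_pow_self] at e
      exact (two_pow_ne_zero (by omega) e).elim
    · exact two_pow_ne (by omega) (by omega) e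
  · intro r c s h
    rw [mem_W] at h
    rcases h with ⟨rfl, rfl, rfl⟩ | ⟨rfl, rfl, h3⟩ | ⟨rfl, rfl, h3⟩ | ⟨rfl, rfl, h3, h4⟩
    · simp only [if_true, add_zero]
      exact (two_pow_self _).symm
    · simp
    · simp
    · obtain ⟨k, rfl⟩ : ∃ k, c = k + 1 := ⟨c - 1, by omega⟩
      simp only [Nat.add_sub_cancel, Nat.add_eq_zero_iff, one_ne_zero, and_false, if_false]
      push_cast
      ring

lemma embeds_B (n : ℕ) : Embeds (B n) (ZMod (2 ^ n)) := by
  refine ⟨fun r => if r = 0 then 0 else ((2 ^ (n - r) : ℕ) : ZMod (2 ^ n)),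
    fun r => if r = 0 then 0 else ((2 ^ (n - r) : ℕ) : ZMod (2 ^ n)),
    fun s => ((2 ^ (n - s) : ℕ) : ZMod (2 ^ n)), ?_, ?_, ?_, ?_⟩
  · rintro a ⟨c, s, h1⟩ b ⟨c', s', h2⟩ e
    rw [mem_B] at h1 h2
    dsimp only at e
    split_ifs at e with ha hb hb
    · omega
    · exact (two_pow_ne_zero (by omega) e.symm).elim
    · exact (two_pow_ne_zero (by omega) e).elim
    · have := two_pow_ne (by omega) (by omega) e
      omega
  · rintro a ⟨c, s, h1⟩ b ⟨c', s', h2⟩ e
    rw [mem_B] at h1 h2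
    dsimp only at e
    split_ifs at e with ha hb hb
    · omega
    · exact (two_pow_ne_zero (by omega) e.symm).elim
    · exact (two_pow_ne_zero (by omega) e).elim
    · have := two_pow_ne (by omega) (by omega) e
      omega
  · rintro a ⟨c, s, h1⟩ b ⟨c', s', h2⟩ e
    rw [mem_B] at h1 h2
    dsimp only at e
    by_cases ha : a = 0 <;> by_cases hb : b = 0
    · omega
    · subst ha
      rw [Nat.sub_zero, two_pow_self] at e
      exact (two_pow_ne_zero (by omega) e.symm).elim
    · subst hb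
      rw [Nat.sub_zero, two_pow_self] at e
      exact (two_pow_ne_zero (by omega) e).elim
    · have := two_pow_ne (by omega) (by omega) e
      omega
  · intro r c s h
    rw [mem_B] at h
    rcases h with ⟨rfl, rfl, rfl⟩ | ⟨rfl, rfl, h3, h4⟩ | ⟨rfl, rfl, h3, h4⟩ | ⟨rfl, rfl, h3⟩
    · simp only [if_true, add_zero, Nat.sub_zero]
      exact (two_pow_self n).symm
    · have : r ≠ 0 := by omega
      simp [this]
    · have : c ≠ 0 := by omega
      simp [this]
    · have : s + 1 ≠ 0 := by omega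
      simp only [this, if_false]
      rw [show n - s = (n - (s + 1)) + 1 by omega]
      push_cast
      ring

lemma minOrder_eq (n : ℕ) (hn : 1 ≤ n) : minOrder (W n) (B n) = (2 ^ n : ℕ) := by
  unfold minOrder
  apply le_antisymm
  · apply iInf₂_le
    have : NeZero (2 ^ n) := ⟨by positivity⟩
    exact ⟨ZMod (2 ^ n), inferInstance, inferInstance, by simp, embeds_W n, embeds_B n⟩
  · apply le_iInf₂
    rintro k ⟨G, inst, hfin, hk, hW, -⟩
    obtain ⟨g, hg⟩ := exists_order_of_W hn hW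
    have h1 : addOrderOf g ∣ Nat.card G := addOrderOf_dvd_natCard g
    rw [hg, hk] at h1
    have hpos : 0 < k := by rw [← hk]; exact Nat.card_pos
    exact_mod_cast Nat.le_of_dvd hpos h1

/-- **Exponential growth.** Part 1 is Q1: there are `c > 1` and latin bitrades with sizes
tending to infinity and `m` finite and at least `c ^ size`; they can even be taken spherical.
Part 2 gives the family explicitly:
`(W n, B n)` (`n ≥ 1`) is a spherical latin bitrade of size `3 n + 1` with `m (W n, B n) = 2 ^ n`;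
both mates embed in the cyclic group of that order, and any abelian group in which one of the
mates embeds has an element of order `2 ^ n`. -/
theorem result :
    (∃ c : ℝ, 1 < c ∧ ∃ T T' : ℕ → Finset (ℕ × ℕ × ℕ),
      (∀ n, IsBitrade (T n) (T' n) ∧ IsSpherical (T n) (T' n)) ∧
      Tendsto (fun n => (T n).card) atTop atTop ∧
      ∀ n, ∃ m : ℕ, minOrder (T n) (T' n) = m ∧ c ^ (T n).card ≤ m) ∧
    (∀ n : ℕ, 1 ≤ n →
      IsBitrade (W n) (B n) ∧ IsSpherical (W n) (B n) ∧ (W n).card = 3 * n + 1 ∧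
      minOrder (W n) (B n) = (2 ^ n : ℕ) ∧
      Embeds (W n) (ZMod (2 ^ n)) ∧ Embeds (B n) (ZMod (2 ^ n)) ∧
      ∀ (G : Type) [AddCommGroup G], (Embeds (W n) G ∨ Embeds (B n) G) →
        ∃ g : G, addOrderOf g = 2 ^ n) := by
  constructor
  · refine ⟨(2 : ℝ) ^ ((1 : ℝ) / 4), ?_, fun n => W (n + 1), fun n => B (n + 1),
      fun n => ⟨isBitrade (n + 1) (by omega), isSpherical (n + 1) (by omega)⟩, ?_, ?_⟩
    · exact Real.one_lt_rpow (by norm_num) (by norm_num)
    · simp only [card_W]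
      apply tendsto_atTop_mono (f := fun n => n) _ tendsto_id
      intro n
      omega
    · intro n
      refine ⟨2 ^ (n + 1), minOrder_eq (n + 1) (by omega), ?_⟩
      rw [card_W, ← Real.rpow_natCast, ← Real.rpow_mul (by norm_num)]
      push_cast
      rw [← Real.rpow_natCast]
      apply Real.rpow_le_rpow_of_exponent_le (by norm_num)
      push_cast
      have : (0 : ℝ) ≤ n := Nat.cast_nonneg n
      linarith
  · intro n hn
    refine ⟨isBitrade n hn, isSpherical n hn, card_W n, minOrder_eq n hn, embeds_W n,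
      embeds_B n, ?_⟩
    rintro G _ (h | h)
    · exact exists_order_of_W hn h
    · exact exists_order_of_B hn h

end Pool.Agent.Results.MP_afce15_co.ExponentialGrowth
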